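import Pool.Agent.H740R3.AQStmts

set_option autoImplicit false
set_option synthInstance.maxHeartbeats 400000

open Filter Topology
open scoped InnerProductSpace

namespace Pool.Agent.H740R3.AQ

theorem fin_tele {V : Type} [SeminormedAddCommGroup V] (ε : ℕ → ℝ)
    (h4 : ∀ k, ε (k + 1) ≤ ε k / 2) (a : ℕ → V) (c : ℝ) (hc : 0 ≤ c) (k : ℕ)
    (ha : ∀ j, k ≤ j → ‖a (j + 1) - a j‖ ≤ c * ε j) :
    ∀ j, k ≤ j → ‖a j - a k‖ ≤ 2 * c * (ε k - ε j) := by
  intro j hj
  induction j, hj using Nat.le_induction with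
  | base => simp
  | succ j hj ih =>
    have h1 : ‖a (j + 1) - a k‖ ≤ ‖a (j + 1) - a j‖ + ‖a j - a k‖ := by
      have := norm_add_le (a (j + 1) - a j) (a j - a k)
      rwa [sub_add_sub_cancel] at this
    have h2 := ha j hj
    have h3 := h4 j
    have h5 : c * (ε j - 2 * (ε j - ε (j + 1))) ≤ 0 := by
      apply mul_nonpos_of_nonneg_of_nonpos hc
      linarith
    nlinarith

theorem fin_eps (ε : ℕ → ℝ) (h3 : ε 0 ≤ 1) (h4 : ∀ k, ε (k + 1) ≤ ε k / 2) :
    ∀ k, ε k ≤ (1 / 2 : ℝ) ^ k := by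
  intro k
  induction k with
  | zero => simpa using h3
  | succ k ih =>
    rw [pow_succ]
    have := h4 k
    linarith

theorem fin_anti (ε : ℕ → ℝ) (h2 : ∀ k, 0 < ε k) (h4 : ∀ k, ε (k + 1) ≤ ε k / 2) :
    Antitone ε := antitone_nat_of_succ_le (fun k => by have := h4 k; have := h2 k; linarith)

theorem fin_lim (B : ℕ → H →L[ℂ] H) (A : H →L[ℂ] H) (C : ℝ) (hB : ∀ k, ‖B k‖ ≤ C)
    (hlim : ∀ f, Tendsto (fun k => B k f) atTop (𝓝 (A f))) (y : ℕ → H) (z : H)
    (hy : Tendsto y atTop (𝓝 z)) : Tendsto (fun k => B k (y k)) atTop (𝓝 (A z)) := by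
  have h1 : Tendsto (fun k => B k (y k - z)) atTop (𝓝 0) := by
    have hC : ∀ k, ‖B k (y k - z)‖ ≤ C * ‖y k - z‖ := fun k =>
      ((B k).le_opNorm _).trans (mul_le_mul_of_nonneg_right (hB k) (norm_nonneg _))
    apply squeeze_zero_norm hC
    have h2 : Tendsto (fun k => ‖y k - z‖) atTop (𝓝 0) :=
      tendsto_iff_norm_sub_tendsto_zero.mp hy
    simpa using h2.const_mul C
  have h2 := h1.add (hlim z)
  rw [zero_add] at h2
  refine h2.congr (fun k => ?_)
  rw [map_sub]
  abel

theorem fin_pow (B : ℕ → H →L[ℂ] H) (A : H →L[ℂ] H) (C : ℝ) (hB : ∀ k, ‖B k‖ ≤ C)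
    (hlim : ∀ f, Tendsto (fun k => B k f) atTop (𝓝 (A f))) (m : ℕ) :
    ∀ f, Tendsto (fun k => (B k ^ m) f) atTop (𝓝 ((A ^ m) f)) := by
  induction m with
  | zero =>
    intro f
    simp only [pow_zero]
    exact tendsto_const_nhds
  | succ m ih =>
    intro f
    have h1 := fin_lim B A C hB hlim (fun k => (B k ^ m) f) ((A ^ m) f) (ih f)
    have h2 : (A ^ (m + 1)) f = A ((A ^ m) f) := by
      rw [pow_succ']; rfl
    rw [h2]
    refine h1.congr (fun k => ?_)
    rw [pow_succ']
    rfl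

theorem taskFinal (hexp : TaskExp) : TaskFinal := by
  intro A x ε L d hd h2 h3 h4 h5 h6 h7 h8 h9 h10 h11 h12 h13
  have hanti := fin_anti ε h2 h4
  have hpow := fin_eps ε h3 h4
  have hε0 : Tendsto ε atTop (𝓝 0) := by
    refine squeeze_zero (fun k => (h2 k).le) hpow ?_
    exact tendsto_pow_atTop_nhds_zero_of_lt_one (by norm_num) (by norm_num)
  have hLmono : StrictMono L := strictMono_nat_of_lt_succ h5
  -- powers
  have hpw : ∀ k m, m ≤ L k → ∀ j, k ≤ j → ‖A j ^ m‖ ≤ ‖A k ^ m‖ + 2 * (ε k - ε j) := by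
    intro k m hm j hj
    induction j, hj using Nat.le_induction with
    | base => simp
    | succ j hj ih =>
      have h1 := h9 j m (hm.trans (hLmono.monotone hj))
      have h3' := h4 j
      linarith
  set C : ℝ := ‖A 0‖ + 2 with hC
  have hAC : ∀ k, ‖A k‖ ≤ C := by
    intro k
    have h1 := hpw 0 1 h10 k (Nat.zero_le k)
    rw [pow_one, pow_one] at h1
    have := h2 k
    rw [hC]
    linarith
  have hC0 : 0 ≤ C := (norm_nonneg _).trans (hAC 0)
  -- Cauchy
  have hcau : ∀ f, CauchySeq (fun j => A j f) := by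
    intro f
    rw [Metric.cauchySeq_iff']
    intro η hη
    have hP : Tendsto (fun k => Pi (L k) f) atTop (𝓝 f) :=
      (tendsto_Pi f).comp hLmono.tendsto_atTop
    have hP2 : Tendsto (fun k => 2 * C * ‖f - Pi (L k) f‖) atTop (𝓝 0) := by
      have h1 : Tendsto (fun k => ‖Pi (L k) f - f‖) atTop (𝓝 0) :=
        tendsto_iff_norm_sub_tendsto_zero.mp hP
      have h2' := h1.const_mul (2 * C)
      rw [mul_zero] at h2'
      refine h2'.congr (fun k => ?_)
      rw [norm_sub_rev]
    obtain ⟨k, hk⟩ := (hP2.eventually (gt_mem_nhds (half_pos hη))).exists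
    set g := Pi (L k) f with hg
    have hgg : Pi (L k) g = g := by rw [hg, Pi_Pi, min_self]
    have hgf : ‖g‖ ≤ ‖f‖ := norm_Pi_le _ _
    have hE : Tendsto (fun j => 2 * ‖g‖ * ε j) atTop (𝓝 0) := by
      have := hε0.const_mul (2 * ‖g‖)
      rwa [mul_zero] at this
    obtain ⟨K, hK1, hK2⟩ := ((hE.eventually (gt_mem_nhds (half_pos hη))).and
      (eventually_ge_atTop k)).exists
    refine ⟨K, fun n hn => ?_⟩
    rw [dist_eq_norm]
    have ht := fin_tele ε h4 (fun j => A j g) ‖g‖ (norm_nonneg _) K (by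
      intro j hj
      have := h8 j g (Pi_of_le (hLmono.monotone (hK2.trans hj)) hgg)
      rw [mul_comm]
      exact this) n hn
    have h1 : A n f - A K f = A n (f - g) + (A n g - A K g) + (-(A K (f - g))) := by
      rw [map_sub, map_sub]; abel
    rw [h1]
    have h2' : ‖A n (f - g) + (A n g - A K g) + (-(A K (f - g)))‖ ≤
        ‖A n (f - g)‖ + ‖A n g - A K g‖ + ‖A K (f - g)‖ := by
      refine (norm_add_le _ _).trans ?_
      rw [norm_neg]
      have := norm_add_le (A n (f - g)) (A n g - A K g)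
      linarith
    have h3' : ‖A n (f - g)‖ ≤ C * ‖f - g‖ :=
      ((A n).le_opNorm _).trans (mul_le_mul_of_nonneg_right (hAC n) (norm_nonneg _))
    have h4' : ‖A K (f - g)‖ ≤ C * ‖f - g‖ :=
      ((A K).le_opNorm _).trans (mul_le_mul_of_nonneg_right (hAC K) (norm_nonneg _))
    have h5' : ‖A n g - A K g‖ ≤ 2 * ‖g‖ * ε K := by
      refine ht.trans ?_
      apply mul_le_mul_of_nonneg_left _ (by positivity)
      have := h2 n
      linarith
    have h6' : 2 * C * ‖f - g‖ < η / 2 := hk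
    have h7' : 2 * ‖g‖ * ε K < η / 2 := hK1
    linarith
  choose F hF using fun f => cauchySeq_tendsto_of_complete (hcau f)
  let A' : H →L[ℂ] H := continuousLinearMapOfTendsto (g := A) (f := F) (tendsto_pi_nhds.mpr hF)
  have hA' : ∀ f, Tendsto (fun j => A j f) atTop (𝓝 (A' f)) := hF
  have hApow := fin_pow A A' C hAC hA'
  -- the limit vector
  have hxc : CauchySeq x := by
    apply cauchySeq_of_le_tendsto_0' (fun n => 2 * ε n)
    · intro n m hnm
      rw [dist_comm, dist_eq_norm]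
      have ht := fin_tele ε h4 x 1 zero_le_one n (by
        intro j _
        rw [one_mul]
        exact (h6 j).le) m hnm
      have := h2 m
      linarith
    · have := hε0.const_mul 2
      rwa [mul_zero] at this
  obtain ⟨x', hx'⟩ := cauchySeq_tendsto_of_complete hxc
  refine ⟨A', ?_, ?_, x', ?_⟩
  · intro f g
    have hbc : ∀ y : H, Continuous (fun z : H => b y z) := by
      intro y
      unfold b
      exact continuous_const.inner continuous_id
    have h1 : Tendsto (fun j => b (A j f) g) atTop (𝓝 (b (A' f) g)) := by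
      rw [b_comm (A' f) g]
      refine (((hbc g).tendsto _).comp (hA' f)).congr (fun j => ?_)
      exact b_comm _ _
    have h2' : Tendsto (fun j => b (A j f) g) atTop (𝓝 (b f (A' g))) := by
      refine (((hbc f).tendsto _).comp (hA' g)).congr (fun j => ?_)
      exact (h13 j f g).symm
    exact tendsto_nhds_unique h1 h2'
  · intro η hη
    have h1 : Tendsto (fun k => 2 * ε k) atTop (𝓝 0) := by
      have := hε0.const_mul 2
      rwa [mul_zero] at this
    obtain ⟨k, hk⟩ := (h1.eventually (gt_mem_nhds hη)).exists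
    obtain ⟨m, hm1, hmL, hm2, hm3⟩ := h12 k
    refine ⟨m, hm1, ?_⟩
    have hbd : ∀ j, k + 1 ≤ j → ‖A j ^ m‖ ≤ η ^ m := by
      intro j hj
      have h2' := hpw (k + 1) m hmL j hj
      have h3' := h2 j
      have h4' : ‖A j ^ m‖ ≤ 2 * (ε k) ^ m := by linarith
      have h5' : (2:ℝ) * (ε k) ^ m ≤ (2 * ε k) ^ m := by
        rw [mul_pow]
        apply mul_le_mul_of_nonneg_right _ (pow_nonneg (h2 k).le m)
        calc (2:ℝ) = 2 ^ 1 := (pow_one 2).symm
          _ ≤ 2 ^ m := pow_le_pow_right₀ (by norm_num) hm1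
      have h6' : (2 * ε k) ^ m ≤ η ^ m := by
        apply pow_le_pow_left₀ _ hk.le
        have := h2 k
        linarith
      linarith
    apply ContinuousLinearMap.opNorm_le_bound _ (pow_nonneg hη.le m)
    intro f
    have hlim := (hApow m f).norm
    apply le_of_tendsto hlim
    filter_upwards [eventually_ge_atTop (k + 1)] with j hj
    exact ((A j ^ m).le_opNorm f).trans (mul_le_mul_of_nonneg_right (hbd j hj) (norm_nonneg _))
  · have hE := hexp A' A C hAC x' x hx' (fun m => hApow m x')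
    rw [Metric.dense_iff]
    intro v δ hδ
    have h1 : Tendsto (fun k => 2 * ε k) atTop (𝓝 0) := by
      have := hε0.const_mul 2
      rwa [mul_zero] at this
    obtain ⟨k0, hk0⟩ := (h1.eventually (gt_mem_nhds (half_pos hδ))).exists
    obtain ⟨k, hk, hdk⟩ := hd v (δ / 2) (half_pos hδ) k0
    obtain ⟨n, hnL, hn⟩ := h7 k
    refine ⟨NormedSpace.exp ((n : ℂ) • A') x', ?_, ⟨n, rfl⟩⟩
    have hlim : Tendsto (fun i => ‖NormedSpace.exp ((n : ℂ) • A i) (x i) -
        NormedSpace.exp ((n : ℂ) • A (k + 1)) (x (k + 1))‖) atTop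
        (𝓝 ‖NormedSpace.exp ((n : ℂ) • A') x' -
        NormedSpace.exp ((n : ℂ) • A (k + 1)) (x (k + 1))‖) :=
      ((hE n).sub_const _).norm
    have hle : ‖NormedSpace.exp ((n : ℂ) • A') x' -
        NormedSpace.exp ((n : ℂ) • A (k + 1)) (x (k + 1))‖ ≤ ε k := by
      apply le_of_tendsto hlim
      filter_upwards [eventually_ge_atTop (k + 1)] with i hi
      have ht := fin_tele ε h4 (fun i => NormedSpace.exp ((n : ℂ) • A i) (x i)) 1 zero_le_one
        (k + 1) (by
          intro j hj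
          rw [one_mul]
          exact (h11 j n (hnL.trans (hLmono.monotone hj))).le) i hi
      have h3' := h2 i
      have h4' := h4 k
      linarith
    rw [Metric.mem_ball, dist_eq_norm]
    have h3' : ‖NormedSpace.exp ((n : ℂ) • A') x' - v‖ ≤
        ‖NormedSpace.exp ((n : ℂ) • A') x' -
          NormedSpace.exp ((n : ℂ) • A (k + 1)) (x (k + 1))‖ +
        ‖NormedSpace.exp ((n : ℂ) • A (k + 1)) (x (k + 1)) - d k‖ + ‖d k - v‖ := by
      have e1 := norm_add_le (NormedSpace.exp ((n : ℂ) • A') x' -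
          NormedSpace.exp ((n : ℂ) • A (k + 1)) (x (k + 1)))
          (NormedSpace.exp ((n : ℂ) • A (k + 1)) (x (k + 1)) - d k)
      have e2 := norm_add_le (NormedSpace.exp ((n : ℂ) • A') x' -
          NormedSpace.exp ((n : ℂ) • A (k + 1)) (x (k + 1)) +
          (NormedSpace.exp ((n : ℂ) • A (k + 1)) (x (k + 1)) - d k)) (d k - v)
      have e3 : NormedSpace.exp ((n : ℂ) • A') x' -
          NormedSpace.exp ((n : ℂ) • A (k + 1)) (x (k + 1)) +
          (NormedSpace.exp ((n : ℂ) • A (k + 1)) (x (k + 1)) - d k) + (d k - v) =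
          NormedSpace.exp ((n : ℂ) • A') x' - v := by abel
      rw [e3] at e2
      linarith
    have h4' : ε k ≤ ε k0 := hanti hk
    linarith

end Pool.Agent.H740R3.AQ
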