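import Pool.Agent.H574R3.CS.Stmts

set_option autoImplicit false

namespace Pool.Agent.H574R3.CS

open Polynomial

/-- the homogenised value of a polynomial -/
theorem hom_val_taskN {K : Type} [Field K] {L : Type} [Field L] [Algebra K L] (R : K[X]) (n : ℕ)
    (hn : R.natDegree ≤ n) (u0 u1 : L) (h1 : u1 ≠ 0) :
    ∑ k ∈ Finset.range (n + 1), algebraMap K L (R.coeff k) * (u0 ^ k * u1 ^ (n - k)) =
      u1 ^ n * aeval (u0 / u1) R := by
  rw [aeval_eq_sum_range' (Nat.lt_succ_of_le hn), Finset.mul_sum]
  refine Finset.sum_congr rfl fun k hk => ?_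
  rw [Finset.mem_range] at hk
  rw [Algebra.smul_def, div_pow]
  have h2 : u1 ^ n = u1 ^ (n - k) * u1 ^ k := by
    rw [← pow_add]; congr 1; omega
  rw [h2]
  have h3 : u1 ^ k ≠ 0 := pow_ne_zero _ h1
  field_simp

theorem cub_smul_taskN {K : Type} [Field K] {A : Type} [CommRing A] [Algebra K A] (a : Ten K)
    (g : A) (v : Fin 4 → A) : cub a (fun i => g * v i) = g ^ 3 * cub a v := by
  simp only [cub, Finset.mul_sum]
  refine Finset.sum_congr rfl fun i _ => Finset.sum_congr rfl fun j _ =>
    Finset.sum_congr rfl fun k _ => ?_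
  ring

theorem taskN : TaskN := by
  classical
  intro K _ F a hF x hx hC
  obtain ⟨P, hP0, ⟨t, c, hc, hPt⟩, hnc⟩ := hC
  obtain ⟨i0, hi0⟩ : ∃ i, x i ≠ 0 := by
    by_contra h
    push Not at h
    exact hx (funext h)
  -- the gcd
  set I : Ideal K[X] := Ideal.span (Set.range P) with hI
  set G : K[X] := Submodule.IsPrincipal.generator I with hG
  have hIG : I = Ideal.span {G} := (Ideal.span_singleton_generator I).symm
  have hdiv : ∀ i, ∃ r, P i = G * r := by
    intro i
    have : P i ∈ Ideal.span {G} := by
      rw [← hIG]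
      exact Ideal.subset_span ⟨i, rfl⟩
    exact Ideal.mem_span_singleton.mp this
  choose R hR using hdiv
  have hGt : aeval t G ≠ 0 := by
    intro h
    have h1 := hPt i0
    rw [hR i0, map_mul, h, zero_mul] at h1
    have h2 : algebraMap K (AlgebraicClosure K) (x i0) ≠ 0 := by
      rw [Ne, map_eq_zero]
      exact hi0
    exact (mul_ne_zero hc h2) h1.symm
  have hG0 : G ≠ 0 := by
    intro h
    rw [h, map_zero] at hGt
    exact hGt rfl
  obtain ⟨b, hb⟩ : ∃ b : Fin 4 → K[X], ∑ i, b i * R i = 1 := by
    have hGI : G ∈ I := Submodule.IsPrincipal.generator_mem I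
    rw [hI] at hGI
    obtain ⟨b, hb⟩ := (Ideal.mem_span_range_iff_exists_fun (R := K[X])).mp hGI
    refine ⟨b, ?_⟩
    apply mul_left_cancel₀ hG0
    rw [mul_one, Finset.mul_sum]
    conv_rhs => rw [← hb]
    refine Finset.sum_congr rfl fun i _ => ?_
    rw [hR i]
    ring
  have hcubR : cub a R = 0 := by
    have h1 : cub a P = G ^ 3 * cub a R := by
      rw [← cub_smul_taskN]
      congr 1
      funext i
      exact hR i
    rw [h1] at hP0
    rcases mul_eq_zero.mp hP0 with h | h
    · exact absurd h (pow_ne_zero _ hG0)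
    · exact h
  set n : ℕ := Finset.univ.sup (fun i => (R i).natDegree) with hn
  have hle : ∀ i, (R i).natDegree ≤ n := fun i => Finset.le_sup (f := fun i => (R i).natDegree) (Finset.mem_univ i)
  obtain ⟨i1, hi1⟩ : ∃ i, (R i).natDegree = n := by
    obtain ⟨i, _, hi⟩ := Finset.exists_mem_eq_sup Finset.univ ⟨0, Finset.mem_univ _⟩
      (fun i => (R i).natDegree)
    exact ⟨i, hi.symm⟩
  have hRt : ∀ i, aeval t (R i) = (c / aeval t G) * algebraMap K (AlgebraicClosure K) (x i) := by
    intro i
    have h1 := hPt i
    rw [hR i, map_mul] at h1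
    field_simp
    linear_combination h1
  have hn0 : 0 < n := by
    by_contra h
    have hn0 : n = 0 := by omega
    have hconst : ∀ i, R i = C ((R i).coeff 0) := by
      intro i
      apply eq_C_of_natDegree_le_zero
      rw [← hn0]
      exact hle i
    obtain ⟨i, j, hij⟩ := hnc
    apply hij
    have key : x i * (R j).coeff 0 = x j * (R i).coeff 0 := by
      apply (algebraMap K (AlgebraicClosure K)).injective
      rw [map_mul, map_mul]
      have h1 : algebraMap K (AlgebraicClosure K) ((R i).coeff 0) =
          (c / aeval t G) * algebraMap K (AlgebraicClosure K) (x i) := by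
        rw [← hRt i]
        conv_rhs => rw [hconst i]
        rw [aeval_C]
      have h2 : algebraMap K (AlgebraicClosure K) ((R j).coeff 0) =
          (c / aeval t G) * algebraMap K (AlgebraicClosure K) (x j) := by
        rw [← hRt j]
        conv_rhs => rw [hconst j]
        rw [aeval_C]
      rw [h1, h2]
      ring
    have key2 : C (x i) * R j = C (x j) * R i := by
      rw [hconst i, hconst j, ← C_mul, ← C_mul, key]
    rw [hR i, hR j]
    linear_combination G * key2
  -- the forms
  let f : Fin 4 → MvPolynomial (Fin 2) K := fun i =>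
    ∑ k ∈ Finset.range (n + 1), MvPolynomial.C ((R i).coeff k) *
      (MvPolynomial.X 0 ^ k * MvPolynomial.X 1 ^ (n - k))
  have hfval : ∀ (L : Type) [Field L] [Algebra K L] (u : Fin 2 → L) (i : Fin 4),
      MvPolynomial.aeval u (f i) =
        ∑ k ∈ Finset.range (n + 1), algebraMap K L ((R i).coeff k) * (u 0 ^ k * u 1 ^ (n - k)) := by
    intro L _ _ u i
    simp only [f, map_sum, map_mul, map_pow, MvPolynomial.aeval_X, MvPolynomial.aeval_C]
  have hfval1 : ∀ (L : Type) [Field L] [Algebra K L] (u : Fin 2 → L) (i : Fin 4), u 1 ≠ 0 →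
      MvPolynomial.aeval u (f i) = u 1 ^ n * aeval (u 0 / u 1) (R i) := by
    intro L _ _ u i hu
    rw [hfval, hom_val_taskN (R i) n (hle i) (u 0) (u 1) hu]
  refine ⟨n, f, hn0, ?_, ?_, ?_, ?_⟩
  · intro i
    apply MvPolynomial.IsHomogeneous.sum
    intro k hk
    rw [Finset.mem_range] at hk
    have h1 : (MvPolynomial.X 0 ^ k * MvPolynomial.X 1 ^ (n - k) :
        MvPolynomial (Fin 2) K).IsHomogeneous (k + (n - k)) :=
      (MvPolynomial.isHomogeneous_X_pow 0 k).mul (MvPolynomial.isHomogeneous_X_pow 1 (n - k))
    have h2 := (MvPolynomial.isHomogeneous_C (Fin 2) ((R i).coeff k)).mul h1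
    have h3 : 0 + (k + (n - k)) = n := by omega
    rw [h3] at h2
    exact h2
  · intro u hu
    by_cases h1 : u 1 = 0
    · have h0 : u 0 ≠ 0 := by
        intro h0
        apply hu
        funext i
        fin_cases i
        · exact h0
        · exact h1
      refine ⟨i1, ?_⟩
      rw [hfval, Finset.sum_eq_single n]
      · rw [Nat.sub_self, pow_zero, mul_one]
        apply mul_ne_zero
        · rw [Ne, map_eq_zero, ← hi1]
          change (R i1).leadingCoeff ≠ 0
          rw [Ne, leadingCoeff_eq_zero]
          intro h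
          rw [h, natDegree_zero] at hi1
          omega
        · exact pow_ne_zero _ h0
      · intro k hk hkn
        rw [Finset.mem_range] at hk
        rw [h1, zero_pow (by omega), mul_zero, mul_zero]
      · intro h
        exact absurd (Finset.mem_range.mpr (Nat.lt_succ_self n)) h
    · by_contra hall
      push Not at hall
      have h2 : ∀ i, aeval (u 0 / u 1) (R i) = 0 := by
        intro i
        have h3 := hall i
        rw [hfval1 _ u i h1] at h3
        rcases mul_eq_zero.mp h3 with h | h
        · exact absurd h (pow_ne_zero _ h1)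
        · exact h
      have h4 := congrArg (aeval (u 0 / u 1)) hb
      rw [map_sum, map_one] at h4
      have h5 : ∑ i, aeval (u 0 / u 1) (b i * R i) = 0 := by
        apply Finset.sum_eq_zero
        intro i _
        rw [map_mul, h2 i, mul_zero]
      rw [h5] at h4
      exact zero_ne_one h4
  · rw [hF]
    let L := FractionRing (MvPolynomial (Fin 2) K)
    have hinj : Function.Injective (algebraMap (MvPolynomial (Fin 2) K) L) :=
      IsFractionRing.injective _ _
    apply hinj
    rw [map_zero]
    let φ : MvPolynomial (Fin 2) K →ₐ[K] L := IsScalarTower.toAlgHom K (MvPolynomial (Fin 2) K) L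
    have hφ : ∀ p, algebraMap (MvPolynomial (Fin 2) K) L p = φ p := fun p => rfl
    rw [hφ, map_cub]
    let u : Fin 2 → L := fun i => φ (MvPolynomial.X i)
    have hφu : ∀ p, φ p = MvPolynomial.aeval u p := by
      intro p
      have : φ = MvPolynomial.aeval u := by
        apply MvPolynomial.algHom_ext
        intro i
        rw [MvPolynomial.aeval_X]
      rw [this]
    have hu1 : u 1 ≠ 0 := by
      intro h
      have h2 : φ (MvPolynomial.X 1) = φ 0 := by
        rw [map_zero]; exact h
      have h3 := hinj h2
      exact (MvPolynomial.X_ne_zero (R := K) (1 : Fin 2)) h3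
    have h3 : (fun i => φ (f i)) = fun i => u 1 ^ n * aeval (u 0 / u 1) (R i) := by
      funext i
      rw [hφu, hfval1 _ u i hu1]
    rw [h3, cub_smul_taskN, ← map_cub, hcubR, map_zero, mul_zero]
  · refine ⟨![t, 1], ?_, c / aeval t G, div_ne_zero hc hGt, ?_⟩
    · intro h
      have := congrFun h 1
      simp at this
    · intro i
      rw [hfval1 _ _ i (by simp)]
      simp only [Matrix.cons_val_zero, Matrix.cons_val_one, one_pow, one_mul, div_one]
      exact hRt i

end Pool.Agent.H574R3.CS
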