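import Pool.Agent.H197R3.SF.Stmts

/-!
# The local principle (Bochner-Phillips, Allan)
-/

set_option autoImplicit false

namespace Pool.Agent.H269R3.SFLP

open Pool.Agent.H197R3.SF

section

variable {A : Type} [NormedRing A] [NormedAlgebra ℂ A]

/-- a left ideal as a complex subspace -/
noncomputable def sub (L : Ideal A) : Submodule ℂ A := L.restrictScalars ℂ

lemma mem_sub (L : Ideal A) (a : A) : a ∈ sub L ↔ a ∈ L := Iff.rfl

/-- left multiplication on the quotient by a left ideal -/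
noncomputable def mulq (L : Ideal A) (c : A) : (A ⧸ sub L) →ₗ[ℂ] (A ⧸ sub L) :=
  (sub L).mapQ (sub L) (LinearMap.mulLeft ℂ c) (fun a ha => L.mul_mem_left c ha)

lemma mulq_mk (L : Ideal A) (c a : A) :
    mulq L c (Submodule.Quotient.mk a) = Submodule.Quotient.mk (c * a) := rfl

lemma mulq_bound (L : Ideal A) (hL : IsClosed (sub L : Set A)) (c : A) (v : A ⧸ sub L) :
    ‖mulq L c v‖ ≤ ‖c‖ * ‖v‖ := by
  apply le_of_forall_pos_le_add
  intro ε hε
  have hc : 0 < ‖c‖ + 1 := by positivity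
  obtain ⟨m, hm, hm2⟩ := Submodule.Quotient.norm_mk_lt v (div_pos hε hc)
  have h1 : ‖mulq L c v‖ ≤ ‖c * m‖ := by
    rw [← hm, mulq_mk]
    exact Submodule.Quotient.norm_mk_le _ _
  have h2 : ‖c * m‖ ≤ ‖c‖ * ‖m‖ := norm_mul_le _ _
  have h3 : ‖c‖ * ‖m‖ ≤ ‖c‖ * (‖v‖ + ε / (‖c‖ + 1)) :=
    mul_le_mul_of_nonneg_left hm2.le (norm_nonneg _)
  have h4 : ‖c‖ * (ε / (‖c‖ + 1)) ≤ ε := by
    rw [mul_div_assoc', div_le_iff₀ hc]
    nlinarith [norm_nonneg c]
  calc ‖mulq L c v‖ ≤ ‖c‖ * (‖v‖ + ε / (‖c‖ + 1)) := h1.trans (h2.trans h3)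
    _ = ‖c‖ * ‖v‖ + ‖c‖ * (ε / (‖c‖ + 1)) := by ring
    _ ≤ ‖c‖ * ‖v‖ + ε := by linarith

/-- modulo a maximal left ideal a central element is a scalar -/
lemma exists_scalar [CompleteSpace A] (L : Ideal A) (hmax : L.IsMaximal) (z : A)
    (hz : ∀ a, z * a = a * z) : ∃ lam : ℂ, z - algebraMap ℂ A lam ∈ L := by
  have hLc : IsClosed (sub L : Set A) := Ideal.IsMaximal.isClosed (hI := hmax)
  have hLne : L ≠ ⊤ := hmax.ne_top
  have : Nontrivial (A ⧸ sub L) := by
    rw [Submodule.Quotient.nontrivial_iff]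
    intro h
    apply hLne
    rw [Ideal.eq_top_iff_one, ← mem_sub, h]
    exact Submodule.mem_top
  let T : (A ⧸ sub L) →L[ℂ] (A ⧸ sub L) :=
    (mulq L z).mkContinuous ‖z‖ (mulq_bound L hLc z)
  obtain ⟨lam, hlam⟩ := spectrum.nonempty T
  refine ⟨lam, ?_⟩
  by_contra hnot
  apply hlam
  rw [spectrum.mem_resolventSet_iff, ContinuousLinearMap.isUnit_iff_bijective]
  set c : A := z - algebraMap ℂ A lam with hc
  have hcc : ∀ a, c * a = a * c := by
    intro a
    rw [hc, sub_mul, mul_sub, hz, Algebra.commutes]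
  have hval : ∀ a : A, (algebraMap ℂ ((A ⧸ sub L) →L[ℂ] (A ⧸ sub L)) lam - T)
      (Submodule.Quotient.mk a) = Submodule.Quotient.mk (-(c * a)) := by
    intro a
    have h1 : (algebraMap ℂ ((A ⧸ sub L) →L[ℂ] (A ⧸ sub L)) lam)
        (Submodule.Quotient.mk a) = Submodule.Quotient.mk (lam • a) := by
      rw [Algebra.algebraMap_eq_smul_one]
      rfl
    have h2 : T (Submodule.Quotient.mk a) = Submodule.Quotient.mk (z * a) := rfl
    rw [ContinuousLinearMap.sub_apply, h1, h2, ← Submodule.Quotient.mk_sub]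
    congr 1
    rw [hc, sub_mul, Algebra.smul_def]
    abel
  constructor
  · -- injective
    rw [injective_iff_map_eq_zero]
    intro v
    obtain ⟨a, rfl⟩ := Submodule.Quotient.mk_surjective _ v
    intro hv
    rw [hval, Submodule.Quotient.mk_eq_zero, Submodule.neg_mem_iff, mem_sub] at hv
    rw [Submodule.Quotient.mk_eq_zero, mem_sub]
    -- the left ideal of all `a` with `a * c ∈ L`
    let L' : Ideal A := Submodule.comap (LinearMap.toSpanSingleton A A c) L
    have hL' : ∀ b, b ∈ L' ↔ b * c ∈ L := by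
      intro b
      rw [Submodule.mem_comap, LinearMap.toSpanSingleton_apply, smul_eq_mul]
    have hle : L ≤ L' := by
      intro b hb
      rw [hL', ← hcc]
      exact L.mul_mem_left c hb
    have hne : L' ≠ ⊤ := by
      intro h
      apply hnot
      have : (1 : A) ∈ L' := by rw [h]; exact Submodule.mem_top
      rwa [hL', one_mul] at this
    have heq : L = L' := hmax.eq_of_le hne hle
    rw [heq, hL', ← hcc]
    exact hv
  · -- surjective
    intro v
    obtain ⟨a, rfl⟩ := Submodule.Quotient.mk_surjective _ v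
    have htop : L ⊔ Ideal.span {c} = ⊤ := by
      have h1 : L < L ⊔ Ideal.span {c} := by
        refine lt_of_le_of_ne le_sup_left ?_
        intro h
        apply hnot
        rw [h]
        exact Ideal.mem_sup_right (Ideal.subset_span rfl)
      exact hmax.out.2 _ h1
    have hone : (1 : A) ∈ L ⊔ Ideal.span {c} := by rw [htop]; exact Submodule.mem_top
    obtain ⟨l, hl, s, hs, hls⟩ := Submodule.mem_sup.mp hone
    obtain ⟨b, rfl⟩ := Submodule.mem_span_singleton.mp hs
    refine ⟨Submodule.Quotient.mk (-(a * b)), ?_⟩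
    rw [hval, Submodule.Quotient.eq, mem_sub]
    have h2 : -(c * -(a * b)) - a = -(a * l) := by
      have h3 : a = a * l + a * (b * c) := by
        rw [← mul_add, smul_eq_mul] at *
        rw [hls, mul_one]
      have h4 : -(c * -(a * b)) = a * (b * c) := by
        rw [mul_neg, neg_neg, hcc, mul_assoc]
      rw [h4]
      calc a * (b * c) - a = a * (b * c) - (a * l + a * (b * c)) := by rw [← h3]
        _ = -(a * l) := by abel
    rw [h2]
    exact L.neg_mem (L.mul_mem_left a hl)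

lemma scalar_unique (L : Ideal A) (hL : L ≠ ⊤) (lam mu : ℂ) (z : A)
    (h1 : z - algebraMap ℂ A lam ∈ L) (h2 : z - algebraMap ℂ A mu ∈ L) : lam = mu := by
  by_contra hne
  apply hL
  rw [Ideal.eq_top_iff_one]
  have h3 : algebraMap ℂ A (lam - mu) ∈ L := by
    have := L.sub_mem h2 h1
    rw [map_sub]
    convert this using 1
    abel
  have h4 := L.mul_mem_left (algebraMap ℂ A (lam - mu)⁻¹) h3
  rwa [← map_mul, inv_mul_cancel₀ (sub_ne_zero.mpr hne), map_one] at h4

end

theorem taskLP : TaskLP := by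
  intro A _ _ _ z hz0 hzadd hzc hzn x hloc
  by_contra hx
  push Not at hx
  -- the left ideal generated by `x` is proper
  have hne : Ideal.span {x} ≠ (⊤ : Ideal A) := by
    intro h
    rw [Ideal.eq_top_iff_one] at h
    obtain ⟨y, hy⟩ := Submodule.mem_span_singleton.mp h
    exact hx y hy
  obtain ⟨L, hmax, hle⟩ := Ideal.exists_le_maximal _ hne
  have hLne : L ≠ ⊤ := hmax.ne_top
  have hxL : x ∈ L := hle (Ideal.subset_span rfl)
  have hclosed : IsClosed (L : Set A) := Ideal.IsMaximal.isClosed (hI := hmax)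
  choose χ hχ using fun t => exists_scalar L hmax (z t) (hzc t)
  have hadd : ∀ s t, χ (s + t) = χ s * χ t := by
    intro s t
    apply scalar_unique L hLne _ _ (z (s + t)) (hχ _)
    have h1 := L.add_mem (L.mul_mem_left (z s) (hχ t))
      (L.mul_mem_left (algebraMap ℂ A (χ t)) (hχ s))
    have h2 : z (s + t) - algebraMap ℂ A (χ s * χ t) =
        z s * (z t - algebraMap ℂ A (χ t)) +
          algebraMap ℂ A (χ t) * (z s - algebraMap ℂ A (χ s)) := by
      rw [hzadd, map_mul, mul_sub, mul_sub, ← Algebra.commutes (χ t) (z s),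
        ← Algebra.commutes (χ s) (algebraMap ℂ A (χ t))]
      abel
    rw [h2]
    exact h1
  have hzero : χ 0 = 1 := by
    apply scalar_unique L hLne _ _ (z 0) (hχ _)
    rw [hz0, map_one, sub_self]
    exact L.zero_mem
  have hle1 : ∀ t, ‖χ t‖ ≤ 1 := by
    intro t
    by_contra hgt
    push Not at hgt
    have hχ0 : χ t ≠ 0 := by
      intro h
      rw [h, norm_zero] at hgt
      linarith
    apply hLne
    apply Ideal.eq_top_of_norm_lt_one L (x := 1 - algebraMap ℂ A (χ t)⁻¹ * z t)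
    · have h1 := L.mul_mem_left (algebraMap ℂ A (-(χ t)⁻¹)) (hχ t)
      have h2 : (1 : A) - algebraMap ℂ A (χ t)⁻¹ * z t =
          algebraMap ℂ A (-(χ t)⁻¹) * (z t - algebraMap ℂ A (χ t)) := by
        rw [mul_sub, ← map_mul, map_neg, neg_mul, neg_mul, inv_mul_cancel₀ hχ0, map_neg, map_one]
        abel
      rw [h2]
      exact h1
    · rw [sub_sub_cancel, ← Algebra.smul_def, norm_smul, norm_inv]
      calc ‖χ t‖⁻¹ * ‖z t‖ ≤ ‖χ t‖⁻¹ * 1 :=
            mul_le_mul_of_nonneg_left (hzn t) (inv_nonneg.mpr (norm_nonneg _))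
        _ < 1 := by
          rw [mul_one]
          exact inv_lt_one_of_one_lt₀ hgt
  have hnrm : ∀ t, ‖χ t‖ = 1 := by
    intro t
    apply le_antisymm (hle1 t)
    have h1 : ‖χ t‖ * ‖χ (-t)‖ = 1 := by
      rw [← norm_mul, ← hadd, add_neg_cancel, hzero, norm_one]
    have h2 := hle1 (-t)
    calc (1 : ℝ) = ‖χ t‖ * ‖χ (-t)‖ := h1.symm
      _ ≤ ‖χ t‖ * 1 := mul_le_mul_of_nonneg_left h2 (norm_nonneg _)
      _ = ‖χ t‖ := mul_one _
  obtain ⟨y, w, hsum⟩ := hloc χ ⟨hzero, hadd, hnrm⟩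
  have hmem : y * x - 1 ∈ L := by
    refine hclosed.mem_of_tendsto hsum (Filter.Eventually.of_forall fun s => ?_)
    exact L.sum_mem fun τ _ => L.mul_mem_left _ (hχ τ)
  apply hLne
  rw [Ideal.eq_top_iff_one]
  have := L.sub_mem (L.mul_mem_left y hxL) hmem
  rwa [sub_sub_cancel] at this

end Pool.Agent.H269R3.SFLP
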