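import Pool.Agent.Helper849.TA.Stmts

set_option autoImplicit false

namespace Pool.Agent.Helper849.TA

open MvPolynomial

theorem homog_of_mul_taskWitt {J : Type} (c : ℤ) (hc : c ≠ 0) (P : MvPolynomial J ℤ) (d : ℕ)
    (h : (C c * P).IsHomogeneous d) : P.IsHomogeneous d := by
  intro m hm
  apply h
  rw [coeff_C_mul]
  exact mul_ne_zero hc hm

theorem taskWitt : TaskWitt := by
  intro p _ J _ i
  have hp : (p : ℤ) ≠ 0 := by
    exact_mod_cast (Fact.out : p.Prime).ne_zero
  let x : WittVector p (MvPolynomial J ℤ) := ∑ j, WittVector.teichmuller p (X j)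
  have hghost : ∀ n, ∑ i ∈ Finset.range (n + 1), C ((p : ℤ) ^ i) * x.coeff i ^ p ^ (n - i) =
      ∑ j : J, (X j : MvPolynomial J ℤ) ^ p ^ n := by
    intro n
    have h1 : WittVector.ghostComponent n x = ∑ j : J, (X j : MvPolynomial J ℤ) ^ p ^ n := by
      simp only [x]
      rw [map_sum]
      exact Finset.sum_congr rfl fun j _ => WittVector.ghostComponent_teichmuller p _ n
    rw [← h1, WittVector.ghostComponent_apply, wittPolynomial_eq_sum_C_mul_X_pow, map_sum]
    refine Finset.sum_congr rfl fun i _ => ?_
    simp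
  have hhom : ∀ n, (x.coeff n).IsHomogeneous (p ^ n) := by
    intro n
    induction n using Nat.strong_induction_on with
    | _ n ih =>
      have h1 := hghost n
      rw [Finset.sum_range_succ, Nat.sub_self, pow_zero, pow_one] at h1
      apply homog_of_mul_taskWitt ((p : ℤ) ^ n) (pow_ne_zero _ hp)
      have h2 : C ((p : ℤ) ^ n) * x.coeff n = ∑ j : J, (X j : MvPolynomial J ℤ) ^ p ^ n -
          ∑ i ∈ Finset.range n, C ((p : ℤ) ^ i) * x.coeff i ^ p ^ (n - i) := by
        rw [← h1]
        ring
      rw [h2]
      apply IsHomogeneous.sub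
      · apply IsHomogeneous.sum
        intro j _
        exact isHomogeneous_X_pow j (p ^ n)
      · apply IsHomogeneous.sum
        intro i hi
        rw [Finset.mem_range] at hi
        have h3 := (isHomogeneous_C J ((p : ℤ) ^ i)).mul ((ih i hi).pow (p ^ (n - i)))
        have h4 : 0 + p ^ i * p ^ (n - i) = p ^ n := by
          rw [zero_add, ← pow_add]
          congr 1
          omega
        rw [h4] at h3
        exact h3
  refine ⟨x.coeff i, hhom i, ?_⟩
  intro A _ a
  have h1 : WittVector.map ((aeval a : MvPolynomial J ℤ →ₐ[ℤ] A) : MvPolynomial J ℤ →+* A) x =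
      ∑ j, WittVector.teichmuller p (a j) := by
    simp only [x]
    rw [map_sum]
    refine Finset.sum_congr rfl fun j _ => ?_
    rw [WittVector.map_teichmuller]
    simp
  rw [← h1, WittVector.map_coeff]
  rfl

end Pool.Agent.Helper849.TA
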